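import Mathlib

/-!
# The subgroup generated by the elements of order `p` (project AUT, S00834)
-/

set_option autoImplicit false

namespace QL44

variable {G H : Type*} [Group G] [Group H]

/-- The subgroup generated by the elements of order `p`. -/
def Pi (p : ℕ) (G : Type*) [Group G] : Subgroup G := Subgroup.closure {x | orderOf x = p}

theorem mem_Pi {p : ℕ} {x : G} (hx : orderOf x = p) : x ∈ Pi p G :=
  Subgroup.subset_closure hx

theorem Pi_le {p : ℕ} {K : Subgroup G} (h : ∀ x : G, orderOf x = p → x ∈ K) : Pi p G ≤ K := by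
  unfold Pi
  rw [Subgroup.closure_le]
  exact h

theorem Pi_map (p : ℕ) (f : G ≃* H) : (Pi p G).map f.toMonoidHom = Pi p H := by
  apply le_antisymm
  · rw [Subgroup.map_le_iff_le_comap]
    apply Pi_le
    intro x hx
    rw [Subgroup.mem_comap]
    apply mem_Pi
    exact (MulEquiv.orderOf_eq f x).trans hx
  · apply Pi_le
    intro y hy
    refine ⟨f.symm y, mem_Pi ?_, by simp⟩
    exact (MulEquiv.orderOf_eq f.symm y).trans hy

theorem Pi_map_aut (p : ℕ) (f : MulAut G) : (Pi p G).map f.toMonoidHom = Pi p G := Pi_map p f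

theorem mem_Pi_aut {p : ℕ} (f : MulAut G) {x : G} : f x ∈ Pi p G ↔ x ∈ Pi p G := by
  constructor
  · intro h
    rw [← Pi_map_aut p f⁻¹]
    exact ⟨f x, h, by simp⟩
  · intro h
    rw [← Pi_map_aut p f]
    exact ⟨x, h, rfl⟩

instance Pi_characteristic (p : ℕ) : (Pi p G).Characteristic := by
  refine ⟨fun f => ?_⟩
  ext x
  rw [Subgroup.mem_comap]
  exact mem_Pi_aut f

instance Pi_normal (p : ℕ) : (Pi p G).Normal := Subgroup.normal_of_characteristic _

/-- The image of an element of prime order `p` is trivial or has order `p`. -/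
theorem orderOf_map {p : ℕ} (hp : p.Prime) (f : G →* H) {x : G} (hx : orderOf x = p) :
    f x = 1 ∨ orderOf (f x) = p := by
  have h1 : orderOf (f x) ∣ p := by
    rw [← hx]
    exact orderOf_map_dvd f x
  rcases (Nat.dvd_prime hp).mp h1 with h | h
  · left; exact orderOf_eq_one_iff.mp h
  · right; exact h

/-- If `p` does not divide the order of the target, the elements of order `p` are in the kernel. -/
theorem Pi_le_ker {p : ℕ} (hp : p.Prime) [Finite H] (h : ¬ p ∣ Nat.card H) (f : G →* H) :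
    Pi p G ≤ f.ker := by
  apply Pi_le
  intro x hx
  rw [MonoidHom.mem_ker]
  rcases orderOf_map hp f hx with h1 | h1
  · exact h1
  · exfalso
    apply h
    rw [← h1]
    exact orderOf_dvd_natCard _

/-- Homomorphisms send `Pi` to `Pi`. -/
theorem Pi_map_le {p : ℕ} (hp : p.Prime) (f : G →* H) : (Pi p G).map f ≤ Pi p H := by
  rw [Subgroup.map_le_iff_le_comap]
  apply Pi_le
  intro x hx
  rw [Subgroup.mem_comap]
  rcases orderOf_map hp f hx with h1 | h1
  · rw [h1]; exact one_mem _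
  · exact mem_Pi h1

/-- `Pi` of a subgroup, seen in the group. -/
def PiIn (p : ℕ) (K : Subgroup G) : Subgroup G := Subgroup.closure {x | x ∈ K ∧ orderOf x = p}

theorem PiIn_eq (p : ℕ) (K : Subgroup G) : PiIn p K = (Pi p K).map K.subtype := by
  unfold PiIn Pi
  rw [MonoidHom.map_closure]
  congr 1
  ext x
  constructor
  · rintro ⟨h1, h2⟩
    exact ⟨⟨x, h1⟩, by rw [Set.mem_ofPred_eq, ← Subgroup.orderOf_coe]; exact h2, rfl⟩
  · rintro ⟨y, hy, rfl⟩
    refine ⟨y.2, ?_⟩
    rw [Set.mem_ofPred_eq] at hy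
    rw [← hy]
    exact Subgroup.orderOf_coe y

theorem PiIn_le (p : ℕ) (K : Subgroup G) : PiIn p K ≤ K := by
  unfold PiIn
  rw [Subgroup.closure_le]
  exact fun x hx => hx.1

theorem mem_PiIn {p : ℕ} {K : Subgroup G} {x : G} (h1 : x ∈ K) (h2 : orderOf x = p) :
    x ∈ PiIn p K := Subgroup.subset_closure ⟨h1, h2⟩

theorem PiIn_top (p : ℕ) : PiIn p (⊤ : Subgroup G) = Pi p G := by
  unfold PiIn Pi
  congr 1
  ext x
  simp

theorem PiIn_mono {p : ℕ} {K L : Subgroup G} (h : K ≤ L) : PiIn p K ≤ PiIn p L :=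
  Subgroup.closure_mono (fun _ hx => ⟨h hx.1, hx.2⟩)

theorem PiIn_map (p : ℕ) (f : MulAut G) (K : Subgroup G) :
    (PiIn p K).map f.toMonoidHom = PiIn p (K.map f.toMonoidHom) := by
  unfold PiIn
  rw [MonoidHom.map_closure]
  congr 1
  ext x
  constructor
  · rintro ⟨y, ⟨hy1, hy2⟩, rfl⟩
    refine ⟨⟨y, hy1, rfl⟩, ?_⟩
    exact (MulEquiv.orderOf_eq f y).trans hy2
  · rintro ⟨⟨y, hy1, rfl⟩, hy2⟩
    refine ⟨y, ⟨hy1, ?_⟩, rfl⟩
    exact (MulEquiv.orderOf_eq f y).symm.trans hy2

/-- The product of two elements of commuting subgroups with trivial intersection has order `p` only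
if each factor is trivial or has order `p`. -/
theorem orderOf_factor {p : ℕ} (hp : p.Prime) {x y : G} (hc : x * y = y * x)
    (hd : Disjoint (Subgroup.zpowers x) (Subgroup.zpowers y)) (h : orderOf (x * y) = p) :
    x = 1 ∨ orderOf x = p := by
  have h1 : x ^ p * y ^ p = 1 := by
    rw [← (show Commute x y from hc).mul_pow, ← h]
    exact pow_orderOf_eq_one _
  have h2 : x ^ p = 1 := by
    have h3 : x ^ p ∈ Subgroup.zpowers y := by
      rw [eq_inv_of_mul_eq_one_left h1]
      exact inv_mem (pow_mem (Subgroup.mem_zpowers y) p)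
    exact Subgroup.disjoint_def.mp hd (pow_mem (Subgroup.mem_zpowers x) p) h3
  rcases (Nat.dvd_prime hp).mp (orderOf_dvd_of_pow_eq_one h2) with h3 | h3
  · left; exact orderOf_eq_one_iff.mp h3
  · right; exact h3

/-- Elements of the join of two commuting subgroups are products. -/
theorem mem_sup_comm {X Y : Subgroup G} (hc : ∀ x ∈ X, ∀ y ∈ Y, x * y = y * x) {z : G} :
    z ∈ X ⊔ Y ↔ ∃ x ∈ X, ∃ y ∈ Y, x * y = z := by
  constructor
  · intro hz
    let T : Subgroup G :=
      { carrier := {z | ∃ x ∈ X, ∃ y ∈ Y, x * y = z}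
        one_mem' := ⟨1, X.one_mem, 1, Y.one_mem, mul_one 1⟩
        mul_mem' := by
          rintro _ _ ⟨x, hx, y, hy, rfl⟩ ⟨x', hx', y', hy', rfl⟩
          refine ⟨x * x', X.mul_mem hx hx', y * y', Y.mul_mem hy hy', ?_⟩
          rw [mul_assoc, ← mul_assoc x', hc x' hx' y hy, mul_assoc, mul_assoc]
        inv_mem' := by
          rintro _ ⟨x, hx, y, hy, rfl⟩
          refine ⟨x⁻¹, X.inv_mem hx, y⁻¹, Y.inv_mem hy, ?_⟩
          rw [mul_inv_rev]
          exact hc _ (X.inv_mem hx) _ (Y.inv_mem hy) }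
    have hT : X ⊔ Y ≤ T := by
      apply sup_le
      · intro x hx; exact ⟨x, hx, 1, Y.one_mem, mul_one x⟩
      · intro y hy; exact ⟨1, X.one_mem, y, hy, one_mul y⟩
    exact hT hz
  · rintro ⟨x, hx, y, hy, rfl⟩
    exact (X ⊔ Y).mul_mem (Subgroup.mem_sup_left hx) (Subgroup.mem_sup_right hy)

/-- If `x y` has order `p`, with `x`, `y` in commuting disjoint subgroups, each factor is trivial
or has order `p`. -/
theorem orderOf_factors {p : ℕ} (hp : p.Prime) {X Y : Subgroup G}
    (hc : ∀ x ∈ X, ∀ y ∈ Y, x * y = y * x) (hd : Disjoint X Y) {x y : G} (hx : x ∈ X) (hy : y ∈ Y)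
    (h : orderOf (x * y) = p) : (x = 1 ∨ orderOf x = p) ∧ (y = 1 ∨ orderOf y = p) := by
  constructor
  · apply orderOf_factor hp (hc x hx y hy) _ h
    exact hd.mono (by rwa [Subgroup.zpowers_le]) (by rwa [Subgroup.zpowers_le])
  · apply orderOf_factor hp (hc x hx y hy).symm (x := y) (y := x)
    · exact hd.symm.mono (by rwa [Subgroup.zpowers_le]) (by rwa [Subgroup.zpowers_le])
    · rw [← hc x hx y hy]; exact h

/-- `Pi` of the join of two commuting disjoint subgroups. -/
theorem PiIn_sup {p : ℕ} (hp : p.Prime) (X Y : Subgroup G) (hc : ∀ x ∈ X, ∀ y ∈ Y, x * y = y * x)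
    (hd : Disjoint X Y) : PiIn p (X ⊔ Y) = PiIn p X ⊔ PiIn p Y := by
  apply le_antisymm
  · unfold PiIn
    rw [Subgroup.closure_le]
    rintro z ⟨hz1, hz2⟩
    obtain ⟨x, hx, y, hy, rfl⟩ := (mem_sup_comm hc).mp hz1
    obtain ⟨h1, h2⟩ := orderOf_factors hp hc hd hx hy hz2
    apply Subgroup.mul_mem
    · rcases h1 with rfl | h1
      · exact one_mem _
      · exact Subgroup.mem_sup_left (Subgroup.subset_closure ⟨hx, h1⟩)
    · rcases h2 with rfl | h2
      · exact one_mem _
      · exact Subgroup.mem_sup_right (Subgroup.subset_closure ⟨hy, h2⟩)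
  · exact sup_le (PiIn_mono le_sup_left) (PiIn_mono le_sup_right)

end QL44
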