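import Mathlib
import Pool.Agent.Helper44.QL.Pi

/-!
# Perfect normal subgroups of a product of two commuting subgroups (project AUT, S00834)
-/

set_option autoImplicit false

namespace QL44

open scoped commutatorElement

variable {G : Type*} [Group G]

/-- LEMMA P: a perfect normal subgroup of a product of two commuting subgroups splits. -/
theorem lemmaP {A X Y : Subgroup G} [A.Normal] (hc : ∀ x ∈ X, ∀ y ∈ Y, x * y = y * x)
    (hA : ⁅A, A⁆ = A) (hle : A ≤ X ⊔ Y) : A = (A ⊓ X) ⊔ (A ⊓ Y) := by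
  apply le_antisymm
  · conv_lhs => rw [← hA]
    rw [Subgroup.commutator_le]
    intro a ha b hb
    obtain ⟨a1, ha1, a2, ha2, rfl⟩ := (mem_sup_comm hc).mp (hle ha)
    obtain ⟨b1, hb1, b2, hb2, rfl⟩ := (mem_sup_comm hc).mp (hle hb)
    have c11 := hc a1 ha1 a2 ha2
    have c12 := hc a1 ha1 b2 hb2
    have c21 := hc b1 hb1 a2 ha2
    have c22 := hc b1 hb1 b2 hb2
    have e1 : ⁅a1 * a2, b1⁆ = ⁅a1, b1⁆ := by
      rw [commutatorElement_def, commutatorElement_def, mul_inv_rev]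
      calc a1 * a2 * b1 * (a2⁻¹ * a1⁻¹) * b1⁻¹ = a1 * (a2 * b1) * a2⁻¹ * a1⁻¹ * b1⁻¹ := by group
        _ = a1 * (b1 * a2) * a2⁻¹ * a1⁻¹ * b1⁻¹ := by rw [c21]
        _ = a1 * b1 * a1⁻¹ * b1⁻¹ := by group
    have e2 : ⁅a1 * a2, b2⁆ = ⁅a2, b2⁆ := by
      rw [c11, commutatorElement_def, commutatorElement_def, mul_inv_rev]
      calc a2 * a1 * b2 * (a1⁻¹ * a2⁻¹) * b2⁻¹ = a2 * (a1 * b2) * a1⁻¹ * a2⁻¹ * b2⁻¹ := by group
        _ = a2 * (b2 * a1) * a1⁻¹ * a2⁻¹ * b2⁻¹ := by rw [c12]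
        _ = a2 * b2 * a2⁻¹ * b2⁻¹ := by group
    have m1 : ⁅a1, b1⁆ ∈ A ⊓ X := by
      refine ⟨?_, ?_⟩
      · rw [← e1, commutatorElement_def, mul_assoc, mul_assoc]
        apply A.mul_mem ha
        rw [← mul_assoc]
        exact ‹A.Normal›.conj_mem _ (A.inv_mem ha) b1
      · rw [commutatorElement_def]
        exact X.mul_mem (X.mul_mem (X.mul_mem ha1 hb1) (X.inv_mem ha1)) (X.inv_mem hb1)
    have m2 : ⁅a2, b2⁆ ∈ A ⊓ Y := by
      refine ⟨?_, ?_⟩
      · rw [← e2, commutatorElement_def, mul_assoc, mul_assoc]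
        apply A.mul_mem ha
        rw [← mul_assoc]
        exact ‹A.Normal›.conj_mem _ (A.inv_mem ha) b2
      · rw [commutatorElement_def]
        exact Y.mul_mem (Y.mul_mem (Y.mul_mem ha2 hb2) (Y.inv_mem ha2)) (Y.inv_mem hb2)
    have e3 : ⁅a1 * a2, b1 * b2⁆ = ⁅a1, b1⁆ * ⁅a2, b2⁆ := by
      have c1 := hc a1⁻¹ (X.inv_mem ha1) b2 hb2
      have c2 := hc b1⁻¹ (X.inv_mem hb1) a2 ha2
      have c3 := hc b1⁻¹ (X.inv_mem hb1) b2 hb2
      have c4 := hc b1⁻¹ (X.inv_mem hb1) a2⁻¹ (Y.inv_mem ha2)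
      have c5 := hc a1⁻¹ (X.inv_mem ha1) a2 ha2
      rw [commutatorElement_def, commutatorElement_def, commutatorElement_def, mul_inv_rev,
        mul_inv_rev]
      calc a1 * a2 * (b1 * b2) * (a2⁻¹ * a1⁻¹) * (b2⁻¹ * b1⁻¹)
          = a1 * (a2 * b1) * b2 * a2⁻¹ * a1⁻¹ * b2⁻¹ * b1⁻¹ := by group
        _ = a1 * b1 * (a2 * b2 * a2⁻¹) * (a1⁻¹ * b2⁻¹ * b1⁻¹) := by rw [← c21]; group
        _ = a1 * b1 * (a2 * b2 * a2⁻¹) * (b2⁻¹ * (a1⁻¹ * b1⁻¹)) := by
            rw [hc a1⁻¹ (X.inv_mem ha1) b2⁻¹ (Y.inv_mem hb2), mul_assoc b2⁻¹]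
        _ = a1 * b1 * ((a2 * b2 * a2⁻¹ * b2⁻¹) * (a1⁻¹ * b1⁻¹)) := by group
        _ = a1 * b1 * ((a1⁻¹ * b1⁻¹) * (a2 * b2 * a2⁻¹ * b2⁻¹)) := by
            rw [hc (a1⁻¹ * b1⁻¹) (X.mul_mem (X.inv_mem ha1) (X.inv_mem hb1)) (a2 * b2 * a2⁻¹ * b2⁻¹)
              (Y.mul_mem (Y.mul_mem (Y.mul_mem ha2 hb2) (Y.inv_mem ha2)) (Y.inv_mem hb2))]
        _ = a1 * b1 * a1⁻¹ * b1⁻¹ * (a2 * b2 * a2⁻¹ * b2⁻¹) := by group
    rw [e3]
    exact Subgroup.mul_mem _ (Subgroup.mem_sup_left m1) (Subgroup.mem_sup_right m2)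
  · exact sup_le inf_le_left inf_le_left

/-- Corollary: the dichotomy for a perfect normal subgroup generated by elements of order `p`. -/
theorem lemmaP_dichotomy {p : ℕ} (hp : p.Prime) {A X Y : Subgroup G} [A.Normal] [X.Normal]
    (hc : ∀ x ∈ X, ∀ y ∈ Y, x * y = y * x) (hd : Disjoint X Y)
    (hA : ⁅A, A⁆ = A) (hPi : A ≤ PiIn p A) (hle : A ≤ X ⊔ Y)
    (hX : ∀ B : Subgroup G, B.Normal → B ≤ X → (∃ b ∈ B, orderOf b = p) → X ≤ B) :
    X ≤ A ∨ A ≤ Y := by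
  by_cases h : ∃ b ∈ A ⊓ X, orderOf b = p
  · left
    exact (hX (A ⊓ X) inferInstance inf_le_right h).trans inf_le_left
  · right
    have h1 : PiIn p (A ⊓ X) = ⊥ := by
      unfold PiIn
      rw [Subgroup.closure_eq_bot_iff]
      intro b hb
      exact absurd ⟨b, hb.1, hb.2⟩ h
    have h2 : A = (A ⊓ X) ⊔ (A ⊓ Y) := lemmaP hc hA hle
    calc A ≤ PiIn p A := hPi
      _ = PiIn p ((A ⊓ X) ⊔ (A ⊓ Y)) := by rw [← h2]
      _ = PiIn p (A ⊓ X) ⊔ PiIn p (A ⊓ Y) :=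
          PiIn_sup hp _ _ (fun x hx y hy => hc x hx.2 y hy.2) (hd.mono inf_le_right inf_le_right)
      _ ≤ Y := by
          rw [h1, bot_sup_eq]
          exact (PiIn_le p _).trans inf_le_right

/-- The form used for automorphisms: `S` is invariant or moved into `Q`. -/
theorem auto_dichotomy [Finite G] {p : ℕ} (hp : p.Prime) {S Q : Subgroup G} [S.Normal]
    (hc : ∀ x ∈ S, ∀ y ∈ Q, x * y = y * x) (hd : Disjoint S Q) (hPi : Pi p G ≤ S ⊔ Q)
    (hS : ⁅S, S⁆ = S) (hSPi : S ≤ PiIn p S)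
    (hmin : ∀ B : Subgroup G, B.Normal → B ≤ S → (∃ b ∈ B, orderOf b = p) → S ≤ B)
    (α : MulAut G) : S.map α.toMonoidHom = S ∨ S.map α.toMonoidHom ≤ Q := by
  have hn : (S.map α.toMonoidHom).Normal := Subgroup.Normal.map ‹_› _ α.surjective
  have hperf : ⁅S.map α.toMonoidHom, S.map α.toMonoidHom⁆ = S.map α.toMonoidHom := by
    rw [← Subgroup.map_commutator, hS]
  have hpi : S.map α.toMonoidHom ≤ PiIn p (S.map α.toMonoidHom) := by
    rw [← PiIn_map]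
    exact Subgroup.map_mono hSPi
  have hle : S.map α.toMonoidHom ≤ S ⊔ Q := by
    refine hpi.trans (le_trans ?_ hPi)
    rw [← PiIn_top]
    exact PiIn_mono le_top
  rcases lemmaP_dichotomy hp hc hd hperf hpi hle hmin with h | h
  · left
    have hcard : Nat.card (S.map α.toMonoidHom) = Nat.card S :=
      Nat.card_congr (S.equivMapOfInjective α.toMonoidHom α.injective).symm.toEquiv
    exact (Subgroup.eq_of_le_of_card_ge h hcard.le).symm
  · right
    exact h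

theorem centralizer_map (α : MulAut G) (S : Subgroup G) :
    Subgroup.centralizer ((S.map α.toMonoidHom : Subgroup G) : Set G) =
      (Subgroup.centralizer (S : Set G)).map α.toMonoidHom := by
  ext x
  constructor
  · intro hx
    refine ⟨α.symm x, ?_, by simp⟩
    intro s hs
    have h1 := hx (α s) ⟨s, hs, rfl⟩
    apply α.injective
    rw [map_mul, map_mul, MulEquiv.apply_symm_apply]
    exact h1
  · rintro ⟨y, hy, rfl⟩
    rintro _ ⟨s, hs, rfl⟩
    have h1 := hy s hs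
    show α s * α y = α y * α s
    rw [← map_mul, h1, map_mul]

/-- `S` is invariant under `α` if some subgroup `T` centralising `Q` is not contained in an
invariant subgroup `D` containing the centraliser of `S`. -/
theorem invariant_of_dichotomy {S Q T D : Subgroup G} {α : MulAut G}
    (h : S.map α.toMonoidHom = S ∨ S.map α.toMonoidHom ≤ Q)
    (hT : ∀ t ∈ T, ∀ q ∈ Q, t * q = q * t)
    (hD : Subgroup.centralizer (S : Set G) ≤ D) (hDα : D.map α.toMonoidHom ≤ D) (hTD : ¬ T ≤ D) :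
    S.map α.toMonoidHom = S := by
  rcases h with h | h
  · exact h
  · exfalso
    apply hTD
    intro t ht
    apply hDα
    apply Subgroup.map_mono hD
    rw [← centralizer_map]
    intro q hq
    exact (hT t ht q (h hq)).symm

end QL44
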