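import Mathlib
import Pool.Agent.Helper44.QL.LemmaP

/-!
# Automorphisms of `X × C` preserving a subgroup `P` of `X` with abelian centraliser
(project AUT, S00834)
-/

set_option autoImplicit false

namespace QL44

open scoped commutatorElement

variable {H : Type*} [Group H]

/-- Image of an automorphism-invariant description. -/
theorem map_centralizer_eq {P : Subgroup H} (α : MulAut H) (hP : P.map α.toMonoidHom = P) :
    (Subgroup.centralizer (P : Set H)).map α.toMonoidHom = Subgroup.centralizer (P : Set H) := by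
  rw [← centralizer_map, hP]

section

variable {X C P : Subgroup H}

/-- The centraliser of `P ≤ X` is `C_X(P) C`. -/
theorem mem_centralizer_iff_factor (hc : ∀ x ∈ X, ∀ c ∈ C, x * c = c * x) (hT : X ⊔ C = ⊤)
    (hPX : P ≤ X) (h : H) : h ∈ Subgroup.centralizer (P : Set H) ↔
      ∃ x ∈ X, ∃ c ∈ C, x * c = h ∧ ∀ p ∈ P, p * x = x * p := by
  constructor
  · intro hh
    obtain ⟨x, hx, c, hcc, rfl⟩ := (mem_sup_comm hc).mp (by rw [hT]; exact Subgroup.mem_top h)
    refine ⟨x, hx, c, hcc, rfl, ?_⟩
    intro p hp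
    have h1 := hh p hp
    have h2 := hc p (hPX hp) c hcc
    -- p x c = x c p
    have h3 : p * x * c = x * p * c := by
      calc p * x * c = p * (x * c) := mul_assoc _ _ _
        _ = x * c * p := h1
        _ = x * (c * p) := mul_assoc _ _ _
        _ = x * (p * c) := by rw [h2]
        _ = x * p * c := (mul_assoc _ _ _).symm
    exact mul_right_cancel h3
  · rintro ⟨x, hx, c, hcc, rfl, hx2⟩ p hp
    rw [← mul_assoc, hx2 p hp, mul_assoc, hc p (hPX hp) c hcc, mul_assoc]

/-- The commutator subgroup of `C_H(P)` is `C`. -/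
theorem commutator_centralizer (hc : ∀ x ∈ X, ∀ c ∈ C, x * c = c * x) (hT : X ⊔ C = ⊤)
    (hPX : P ≤ X) (hC : ⁅C, C⁆ = C)
    (hab : ∀ a ∈ X, (∀ p ∈ P, p * a = a * p) → ∀ b ∈ X, (∀ p ∈ P, p * b = b * p) → a * b = b * a) :
    ⁅Subgroup.centralizer (P : Set H), Subgroup.centralizer (P : Set H)⁆ = C := by
  apply le_antisymm
  · rw [Subgroup.commutator_le]
    intro a ha b hb
    obtain ⟨x, hx, c, hcc, rfl, hx2⟩ := (mem_centralizer_iff_factor hc hT hPX a).mp ha
    obtain ⟨y, hy, e, he, rfl, hy2⟩ := (mem_centralizer_iff_factor hc hT hPX b).mp hb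
    have h1 : ⁅x * c, y * e⁆ = ⁅c, e⁆ := by
      have cx := hc x hx c hcc
      have cy := hc y hy c hcc
      have cxe := hc x hx e he
      have xy := hab x hx hx2 y hy hy2
      have e1 : x * c * (y * e) = y * x * (c * e) := by
        calc x * c * (y * e) = x * (c * y) * e := by group
          _ = x * (y * c) * e := by rw [cy]
          _ = x * y * (c * e) := by group
          _ = y * x * (c * e) := by rw [xy]
      have e2 : y * e * (x * c) = y * x * (e * c) := by
        calc y * e * (x * c) = y * (e * x) * c := by group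
          _ = y * (x * e) * c := by rw [cxe]
          _ = y * x * (e * c) := by group
      have e3 : ⁅x * c, y * e⁆ = (x * c * (y * e)) * (y * e * (x * c))⁻¹ := by
        rw [commutatorElement_def]; group
      have hyx : y * x ∈ X := X.mul_mem hy hx
      have hce : c * e * (e * c)⁻¹ ∈ C := C.mul_mem (C.mul_mem hcc he) (C.inv_mem (C.mul_mem he hcc))
      rw [e3, e1, e2]
      calc y * x * (c * e) * (y * x * (e * c))⁻¹
          = (y * x) * (c * e * (e * c)⁻¹) * (y * x)⁻¹ := by group
        _ = (c * e * (e * c)⁻¹) * (y * x) * (y * x)⁻¹ := by rw [hc _ hyx _ hce]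
        _ = ⁅c, e⁆ := by rw [commutatorElement_def]; group
    rw [h1, commutatorElement_def]
    exact C.mul_mem (C.mul_mem (C.mul_mem hcc he) (C.inv_mem hcc)) (C.inv_mem he)
  · conv_lhs => rw [← hC]
    apply Subgroup.commutator_mono
    all_goals
      intro c hcc p hp
      exact hc p (hPX hp) c hcc

/-- `X` is the centraliser of `C`. -/
theorem centralizer_right (hc : ∀ x ∈ X, ∀ c ∈ C, x * c = c * x) (hT : X ⊔ C = ⊤)
    (hZ : ∀ c ∈ C, (∀ e ∈ C, e * c = c * e) → c = 1) : Subgroup.centralizer (C : Set H) = X := by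
  ext h
  constructor
  · intro hh
    obtain ⟨x, hx, c, hcc, rfl⟩ := (mem_sup_comm hc).mp (by rw [hT]; exact Subgroup.mem_top h)
    have h1 : c = 1 := by
      apply hZ c hcc
      intro e he
      have h2 := hh e he
      have h3 := hc x hx e he
      have h4 : x * (e * c) = x * (c * e) := by
        calc x * (e * c) = x * e * c := (mul_assoc _ _ _).symm
          _ = e * x * c := by rw [h3]
          _ = e * (x * c) := mul_assoc _ _ _
          _ = x * c * e := h2
          _ = x * (c * e) := mul_assoc _ _ _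
      exact mul_left_cancel h4
    rw [h1, mul_one]
    exact hx
  · intro hx c hcc
    exact (hc h hx c hcc).symm

/-- An automorphism preserving `P` preserves `C` and `X`. -/
theorem factors_invariant (hc : ∀ x ∈ X, ∀ c ∈ C, x * c = c * x) (hT : X ⊔ C = ⊤)
    (hPX : P ≤ X) (hC : ⁅C, C⁆ = C) (hZ : ∀ c ∈ C, (∀ e ∈ C, e * c = c * e) → c = 1)
    (hab : ∀ a ∈ X, (∀ p ∈ P, p * a = a * p) → ∀ b ∈ X, (∀ p ∈ P, p * b = b * p) → a * b = b * a)
    (α : MulAut H) (hP : P.map α.toMonoidHom = P) :
    C.map α.toMonoidHom = C ∧ X.map α.toMonoidHom = X := by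
  have h1 : C.map α.toMonoidHom = C := by
    have h2 := commutator_centralizer hc hT hPX hC hab
    conv_lhs => rw [← h2]
    rw [Subgroup.map_commutator, map_centralizer_eq α hP, h2]
  refine ⟨h1, ?_⟩
  rw [← centralizer_right hc hT hZ]
  exact map_centralizer_eq α h1

end

end QL44
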