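import Mathlib
import Pool.Agent.Helper44.QL.Pi

/-!
# `M` is characteristic in `S` (block G5 of project AUT, S00834)

`R` is a commutative ring with a ring homomorphism `ε : R → ZMod 2` and derivations `D i : R → ZMod 2`
over `ε` which separate the points of `ker ε` (for `R = TrivSqZeroExt (ZMod 2) J`: `ε = fst` and
`D f = f ∘ snd`).
-/

set_option autoImplicit false

namespace QL44

open Matrix

/-! ### elements of order 151 of `GL (Fin 15) (ZMod 2)` -/

theorem prime151 : Nat.Prime 151 := by norm_num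

theorem order_two : orderOf (2 : ZMod 151) = 15 := by
  apply orderOf_eq_of_pow_and_pow_div_prime (by norm_num)
  · decide +kernel
  · intro p hp hdvd
    have h1 : p = 3 ∨ p = 5 := by
      have h2 : p ∣ 3 * 5 := hdvd
      rcases (Nat.Prime.dvd_mul hp).mp h2 with h | h
      · left; exact (Nat.prime_dvd_prime_iff_eq hp (by norm_num)).mp h
      · right; exact (Nat.prime_dvd_prime_iff_eq hp (by norm_num)).mp h
    rcases h1 with rfl | rfl <;> decide +kernel

/-- `2 ^ a ≡ 2 ^ b` modulo `151` only if `15` divides `a - b`. -/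
theorem pow_modEq {a b : ℕ} (hba : b ≤ a) (h : 2 ^ a ≡ 2 ^ b [MOD 151]) : 15 ∣ a - b := by
  have h1 : ((2 : ZMod 151) ^ a) = 2 ^ b := by
    have := (ZMod.natCast_eq_natCast_iff _ _ _).mpr h
    push_cast at this
    exact this
  have hu : IsUnit (2 : ZMod 151) := ⟨⟨2, 76, by decide +kernel, by decide +kernel⟩, rfl⟩
  have h2 : (2 : ZMod 151) ^ (a - b) = 1 := by
    have h3 : (2 : ZMod 151) ^ b * 2 ^ (a - b) = 2 ^ b * 1 := by
      rw [← pow_add, Nat.add_sub_cancel' hba, h1, mul_one]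
    exact (hu.pow b).mul_left_cancel h3
  rw [← order_two]
  exact orderOf_dvd_of_pow_eq_one h2

/-- fixed vectors of a `p`-group of matrices in an invariant subspace -/
theorem card_fix {d p : ℕ} [Fact p.Prime] {Z : Type*} [Group Z] (hZ : IsPGroup p Z)
    (ρ : Z →* GL (Fin d) (ZMod 2)) (F : Submodule (ZMod 2) (Fin d → ZMod 2))
    (hF : ∀ g, ∀ v ∈ F, (ρ g).1 *ᵥ v ∈ F) :
    Nat.card F ≡ Nat.card {v : F // ∀ g, (ρ g).1 *ᵥ v.1 = v.1} [MOD p] := by
  let _ : MulAction Z F :=
    { smul := fun g v => ⟨(ρ g).1 *ᵥ v.1, hF g v.1 v.2⟩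
      one_smul := fun v => by
        apply Subtype.ext
        show (ρ 1).1 *ᵥ v.1 = v.1
        rw [map_one, Units.val_one, Matrix.one_mulVec]
      mul_smul := fun g h v => by
        apply Subtype.ext
        show (ρ (g * h)).1 *ᵥ v.1 = (ρ g).1 *ᵥ ((ρ h).1 *ᵥ v.1)
        rw [map_mul, Units.val_mul, Matrix.mulVec_mulVec] }
  have h := hZ.card_modEq_card_fixedPoints F
  have h2 : Nat.card (MulAction.fixedPoints Z F) = Nat.card {v : F // ∀ g, (ρ g).1 *ᵥ v.1 = v.1} := by
    apply Nat.card_congr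
    apply Equiv.subtypeEquivRight
    intro v
    constructor
    · intro hv g
      exact congrArg Subtype.val (hv g)
    · intro hv g
      exact Subtype.ext (hv g)
  rw [h2] at h
  exact h

/-- the cardinality of an `F_2`-space -/
theorem card_pow (U : Type*) [AddCommGroup U] [Module (ZMod 2) U] [Finite U] :
    Nat.card U = 2 ^ Module.finrank (ZMod 2) U := by
  have h := Module.natCard_eq_pow_finrank (K := ZMod 2) (V := U)
  rw [h, Nat.card_zmod]

theorem isPGroup_zpowers {G : Type*} [Group G] {p : ℕ} {z : G} (hz : z ^ p = 1) :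
    IsPGroup p (Subgroup.zpowers z) := by
  rintro ⟨x, hx⟩
  obtain ⟨k, rfl⟩ := hx
  refine ⟨1, ?_⟩
  apply Subtype.ext
  show (z ^ k) ^ (p ^ 1) = 1
  rw [pow_one, ← zpow_natCast, ← _root_.zpow_mul, mul_comm, _root_.zpow_mul, zpow_natCast, hz,
    _root_.one_zpow]

/-- the subspace of vectors fixed by a family of matrices -/
def fixS {d : ℕ} {Z : Type*} (ρ : Z → GL (Fin d) (ZMod 2)) : Submodule (ZMod 2) (Fin d → ZMod 2) where
  carrier := {v | ∀ g, (ρ g).1 *ᵥ v = v}
  add_mem' := by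
    intro a b ha hb g
    rw [Matrix.mulVec_add, ha g, hb g]
  zero_mem' := fun g => Matrix.mulVec_zero _
  smul_mem' := by
    intro c x hx g
    rw [Matrix.mulVec_smul, hx g]

theorem mem_fixS {d : ℕ} {Z : Type*} {ρ : Z → GL (Fin d) (ZMod 2)} {v : Fin d → ZMod 2} :
    v ∈ fixS ρ ↔ ∀ g, (ρ g).1 *ᵥ v = v := Iff.rfl

theorem card_fix' {d p : ℕ} [Fact p.Prime] {Z : Type*} [Group Z] (hZ : IsPGroup p Z)
    (ρ : Z →* GL (Fin d) (ZMod 2)) (F : Submodule (ZMod 2) (Fin d → ZMod 2))
    (hF : ∀ g, ∀ v ∈ F, (ρ g).1 *ᵥ v ∈ F) :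
    Nat.card F ≡ Nat.card ↥(F ⊓ fixS ρ) [MOD p] := by
  refine (card_fix hZ ρ F hF).trans ?_
  have : Nat.card {v : F // ∀ g, (ρ g).1 *ᵥ v.1 = v.1} = Nat.card ↥(F ⊓ fixS ρ) := by
    apply Nat.card_congr
    exact
      { toFun := fun v => ⟨v.1.1, v.1.2, v.2⟩
        invFun := fun v => ⟨⟨v.1, v.2.1⟩, v.2.2⟩
        left_inv := fun v => rfl
        right_inv := fun v => rfl }
  rw [this]

/-- an element of order `151` has no non-zero fixed vector -/
theorem no_fixed (z : GL (Fin 15) (ZMod 2)) (hz : orderOf z = 151) (v : Fin 15 → ZMod 2)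
    (hv : z.1 *ᵥ v = v) : v = 0 := by
  have _ : Fact (Nat.Prime 151) := ⟨prime151⟩
  have hP : IsPGroup 151 (Subgroup.zpowers z) := isPGroup_zpowers (by rw [← hz]; exact pow_orderOf_eq_one z)
  have h1 := card_fix' hP (Subgroup.zpowers z).subtype ⊤ (fun _ _ _ => Submodule.mem_top)
  rw [card_pow, card_pow, finrank_top, Module.finrank_fin_fun, top_inf_eq] at h1
  have hle : Module.finrank (ZMod 2) (fixS (Subgroup.zpowers z).subtype) ≤ 15 := by
    have := Submodule.finrank_le (fixS (Subgroup.zpowers z).subtype)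
    rwa [Module.finrank_fin_fun] at this
  have h2 := pow_modEq hle h1
  have h3 : ∀ w : Fin 15 → ZMod 2, z.1 *ᵥ w = w → w ∈ fixS (Subgroup.zpowers z).subtype := by
    intro w hw
    rw [mem_fixS]
    rintro ⟨g, k, rfl⟩
    have h4 : ∀ n : ℕ, (z ^ n).1 *ᵥ w = w := by
      intro n
      induction n with
      | zero => rw [pow_zero, Units.val_one, Matrix.one_mulVec]
      | succ n ih => rw [pow_succ, Units.val_mul, ← Matrix.mulVec_mulVec, hw, ih]
    show (z ^ k).1 *ᵥ w = w
    cases k with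
    | ofNat n =>
      rw [Int.ofNat_eq_natCast, zpow_natCast]
      exact h4 n
    | negSucc n =>
      rw [zpow_negSucc]
      have h5 := congrArg (fun u => ((z ^ (n + 1))⁻¹).1 *ᵥ u) (h4 (n + 1))
      simp only [Matrix.mulVec_mulVec, ← Units.val_mul, inv_mul_cancel, Units.val_one,
        Matrix.one_mulVec] at h5
      exact h5.symm
  have h6 : Module.finrank (ZMod 2) (fixS (Subgroup.zpowers z).subtype) = 0 ∨
      Module.finrank (ZMod 2) (fixS (Subgroup.zpowers z).subtype) = 15 := by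
    obtain ⟨c, hc⟩ := h2
    rcases Nat.eq_zero_or_pos c with rfl | hc'
    · right; omega
    · left; omega
  rcases h6 with h6 | h6
  · have h7 : fixS (Subgroup.zpowers z).subtype = ⊥ := Submodule.finrank_eq_zero.mp h6
    have h8 := h3 v hv
    rw [h7] at h8
    exact (Submodule.mem_bot _).mp h8
  · exfalso
    have h7 : fixS (Subgroup.zpowers z).subtype = ⊤ := by
      apply Submodule.eq_top_of_finrank_eq
      rw [h6, Module.finrank_fin_fun]
    have h8 : z = 1 := by
      apply Units.ext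
      rw [Units.val_one]
      apply Matrix.ext_of_mulVec_single
      intro i
      rw [Matrix.one_mulVec]
      have : (Pi.single i 1 : Fin 15 → ZMod 2) ∈ fixS (Subgroup.zpowers z).subtype := by
        rw [h7]; exact Submodule.mem_top
      exact this ⟨z, Subgroup.mem_zpowers z⟩
    rw [h8, orderOf_one] at hz
    norm_num at hz

/-- an element of order `151` acts irreducibly -/
theorem irreducible (z : GL (Fin 15) (ZMod 2)) (hz : orderOf z = 151)
    (F : Submodule (ZMod 2) (Fin 15 → ZMod 2)) (hF : ∀ v ∈ F, z.1 *ᵥ v ∈ F) (h0 : F ≠ ⊥) :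
    F = ⊤ := by
  have _ : Fact (Nat.Prime 151) := ⟨prime151⟩
  have hz1 : z ^ 151 = 1 := by rw [← hz]; exact pow_orderOf_eq_one z
  have hP : IsPGroup 151 (Subgroup.zpowers z) := isPGroup_zpowers hz1
  have hFn : ∀ n : ℕ, ∀ v ∈ F, (z ^ n).1 *ᵥ v ∈ F := by
    intro n
    induction n with
    | zero => intro v hv; rwa [pow_zero, Units.val_one, Matrix.one_mulVec]
    | succ n ih =>
      intro v hv
      rw [pow_succ, Units.val_mul, ← Matrix.mulVec_mulVec]
      exact ih _ (hF v hv)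
  have hF' : ∀ g : Subgroup.zpowers z, ∀ v ∈ F, ((Subgroup.zpowers z).subtype g).1 *ᵥ v ∈ F := by
    rintro ⟨g, hg⟩ v hv
    have h1 : g ∈ Submonoid.powers z := mem_powers_iff_mem_zpowers.mpr hg
    obtain ⟨n, rfl⟩ := h1
    exact hFn n v hv
  have h1 := card_fix' hP (Subgroup.zpowers z).subtype F hF'
  have h2 : F ⊓ fixS (Subgroup.zpowers z).subtype = ⊥ := by
    rw [eq_bot_iff]
    rintro v ⟨-, hv⟩
    exact (Submodule.mem_bot _).mpr (no_fixed z hz v (hv ⟨z, Subgroup.mem_zpowers z⟩))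
  rw [h2, card_pow, card_pow, finrank_bot] at h1
  have h3 := pow_modEq (Nat.zero_le _) h1
  have hle : Module.finrank (ZMod 2) F ≤ 15 := by
    have := Submodule.finrank_le F
    rwa [Module.finrank_fin_fun] at this
  have hpos : Module.finrank (ZMod 2) F ≠ 0 := by
    intro h
    exact h0 (Submodule.finrank_eq_zero.mp h)
  apply Submodule.eq_top_of_finrank_eq
  rw [Module.finrank_fin_fun]
  obtain ⟨c, hc⟩ := h3
  omega

/-! ### the main statement -/

section main

variable {R : Type*} [CommRing R] (ε : R →+* ZMod 2)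

/-- reduction of matrices -/
abbrev red (ε : R →+* ZMod 2) : GL (Fin 15) R →* GL (Fin 15) (ZMod 2) :=
  Matrix.GeneralLinearGroup.map ε

/-- a derivation over `ε` -/
def IsDer (ε : R →+* ZMod 2) (D : R →+ ZMod 2) : Prop :=
  ∀ a b, D (a * b) = ε a * D b + D a * ε b

variable {ε}

theorem der_mul {D : R →+ ZMod 2} (hD : IsDer ε D) (A B : Matrix (Fin 15) (Fin 15) R) :
    (A * B).map D = A.map ε * B.map D + A.map D * B.map ε := by
  ext i j
  simp only [Matrix.map_apply, Matrix.mul_apply, Matrix.add_apply, map_sum, hD _ _,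
    Finset.sum_add_distrib]

theorem der_one {D : R →+ ZMod 2} (hD : IsDer ε D) : (1 : Matrix (Fin 15) (Fin 15) R).map D = 0 := by
  have h1 : D 1 = 0 := by
    have := hD 1 1
    rw [one_mul, map_one ε, one_mul, mul_one] at this
    exact add_eq_left.mp this.symm
  ext i j
  rw [Matrix.map_apply, Matrix.zero_apply, Matrix.one_apply]
  split_ifs
  · exact h1
  · exact map_zero D

theorem red_val (g : GL (Fin 15) R) : (red ε g).1 = g.1.map ε := rfl

theorem der_conj {D : R →+ ZMod 2} (hD : IsDer ε D) (Y g : GL (Fin 15) R) (hg : red ε g = 1) :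
    (Y * g * Y⁻¹).1.map D = (red ε Y).1 * g.1.map D * ((red ε Y)⁻¹).1 := by
  have e1 : g.1.map ε = 1 := by rw [← red_val, hg, Units.val_one]
  have e2 : Y.1.map D * ((red ε Y)⁻¹).1 + (red ε Y).1 * (Y⁻¹).1.map D = 0 := by
    have h1 := der_mul hD Y.1 (Y⁻¹).1
    rw [← Units.val_mul, mul_inv_cancel, Units.val_one, der_one hD] at h1
    rw [← map_inv, red_val, red_val, add_comm]
    exact h1.symm
  have e3 : (Y * g).1.map ε = (red ε Y).1 := by
    rw [← red_val, map_mul, hg, mul_one]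
  rw [Units.val_mul, der_mul hD, e3, Units.val_mul, der_mul hD, e1, mul_one, ← red_val, Matrix.add_mul,
    ← red_val, map_inv]
  calc (red ε Y).1 * (Y⁻¹).1.map D + ((red ε Y).1 * g.1.map D * ((red ε Y)⁻¹).1
          + Y.1.map D * ((red ε Y)⁻¹).1)
      = (red ε Y).1 * g.1.map D * ((red ε Y)⁻¹).1
          + (Y.1.map D * ((red ε Y)⁻¹).1 + (red ε Y).1 * (Y⁻¹).1.map D) := by abel
    _ = _ := by rw [e2, add_zero]

theorem der_inv {D : R →+ ZMod 2} (hD : IsDer ε D) (g : GL (Fin 15) R) (hg : red ε g = 1) :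
    (g⁻¹).1.map D = - g.1.map D := by
  have e1 : g.1.map ε = 1 := by rw [← red_val, hg, Units.val_one]
  have e2 : (g⁻¹).1.map ε = 1 := by rw [← red_val, map_inv, hg, inv_one, Units.val_one]
  have h1 := der_mul hD g.1 (g⁻¹).1
  rw [← Units.val_mul, mul_inv_cancel, Units.val_one, der_one hD, e1, e2, one_mul, mul_one] at h1
  exact eq_neg_of_add_eq_zero_left h1.symm

theorem der_mul' {D : R →+ ZMod 2} (hD : IsDer ε D) (g h : GL (Fin 15) R) (hg : red ε g = 1)
    (hh : red ε h = 1) : (g * h).1.map D = h.1.map D + g.1.map D := by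
  have e1 : g.1.map ε = 1 := by rw [← red_val, hg, Units.val_one]
  have e2 : h.1.map ε = 1 := by rw [← red_val, hh, Units.val_one]
  rw [Units.val_mul, der_mul hD, e1, e2, one_mul, mul_one]

variable {S : Type*} [Group S]

/-- Step 1: a normal `2`-subgroup becomes trivial in `GL (Fin 15) (ZMod 2)`. -/
theorem red_trivial (ψ : S →* GL (Fin 15) (ZMod 2)) (N : Subgroup S) [N.Normal]
    (hN : IsPGroup 2 N) (y : S) (hy : orderOf (ψ y) = 151) (m : S) (hm : m ∈ N) : ψ m = 1 := by
  have _ : Fact (Nat.Prime 2) := ⟨Nat.prime_two⟩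
  let ρ : N →* GL (Fin 15) (ZMod 2) := ψ.comp N.subtype
  have h1 := card_fix' hN ρ ⊤ (fun _ _ _ => Submodule.mem_top)
  rw [top_inf_eq] at h1
  have h2 : fixS ρ ≠ ⊥ := by
    intro h
    rw [h, card_pow, card_pow, finrank_top, Module.finrank_fin_fun, finrank_bot] at h1
    revert h1
    decide
  have h3 : ∀ v ∈ fixS ρ, (ψ y).1 *ᵥ v ∈ fixS ρ := by
    intro v hv
    rw [mem_fixS]
    intro g
    have hg : y⁻¹ * g.1 * y ∈ N := by
      have := ‹N.Normal›.conj_mem g.1 g.2 y⁻¹
      rwa [inv_inv] at this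
    have h4 := hv ⟨y⁻¹ * g.1 * y, hg⟩
    have h5 : (ρ g).1 * (ψ y).1 = (ψ y).1 * (ρ ⟨y⁻¹ * g.1 * y, hg⟩).1 := by
      rw [← Units.val_mul, ← Units.val_mul]
      congr 1
      show ψ g.1 * ψ y = ψ y * ψ (y⁻¹ * g.1 * y)
      rw [← map_mul, ← map_mul]
      congr 1
      group
    rw [Matrix.mulVec_mulVec, h5, ← Matrix.mulVec_mulVec, h4]
  have h4 := irreducible (ψ y) hy (fixS ρ) h3 h2
  apply Units.ext
  rw [Units.val_one]
  apply Matrix.ext_of_mulVec_single
  intro i
  rw [Matrix.one_mulVec]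
  have : (Pi.single i 1 : Fin 15 → ZMod 2) ∈ fixS ρ := by
    rw [h4]; exact Submodule.mem_top
  exact this ⟨m, hm⟩

variable [Finite S]

/-- An abelian normal subgroup on which elements of order `151` act without fixed points dies in
`GL (Fin 15) R`. -/
theorem pi_trivial {I : Type*} (D : I → R →+ ZMod 2) (hD : ∀ i, IsDer ε (D i))
    (hsep : ∀ a, ε a = 0 → (∀ i, D i a = 0) → a = 0)
    (hspan : ∀ y : Matrix (Fin 15) (Fin 15) (ZMod 2),
      (∀ z : GL (Fin 15) (ZMod 2), orderOf z = 151 → Matrix.trace (z.1 * y) = 0) →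
      ∃ c : ZMod 2, y = c • (1 : Matrix (Fin 15) (Fin 15) (ZMod 2)))
    (π : S →* GL (Fin 15) R)
    (hlift : ∀ z : GL (Fin 15) (ZMod 2), orderOf z = 151 → ∃ y : S, orderOf y = 151 ∧ red ε (π y) = z)
    (hex : ∃ z : GL (Fin 15) (ZMod 2), orderOf z = 151)
    (N : Subgroup S) [N.Normal] (hN : ∀ m ∈ N, m * m = 1)
    (hfix : ∀ y : S, orderOf y = 151 → ∀ m ∈ N, y * m = m * y → m = 1) (m : S) (hm : m ∈ N) :
    π m = 1 := by
  have hinv : ∀ m ∈ N, m⁻¹ = m := fun m hm => inv_eq_of_mul_eq_one_left (hN m hm)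
  have hcomm : ∀ a ∈ N, ∀ b ∈ N, a * b = b * a := by
    intro a ha b hb
    have h1 := hinv _ (N.mul_mem ha hb)
    rw [_root_.mul_inv_rev, hinv a ha, hinv b hb] at h1
    exact h1.symm
  have hP : IsPGroup 2 N := by
    rintro ⟨x, hx⟩
    refine ⟨1, ?_⟩
    apply Subtype.ext
    show x ^ (2 ^ 1) = 1
    rw [pow_one, pow_two]
    exact hN x hx
  obtain ⟨z0, hz0⟩ := hex
  obtain ⟨y0, hy0, hyz0⟩ := hlift z0 hz0
  have hred : ∀ m ∈ N, red ε (π m) = 1 := by
    intro m hm
    exact red_trivial ((red ε).comp π) N hP y0 (by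
      show orderOf (red ε (π y0)) = 151
      rw [hyz0, hz0]) m hm
  -- every element of `N` is a commutator with `y`
  have hsurj : ∀ y : S, orderOf y = 151 → ∀ m ∈ N, ∃ n ∈ N, m = y * n * y⁻¹ * n⁻¹ := by
    intro y hy m hm
    let f : N → N := fun n => ⟨y * n.1 * y⁻¹ * n.1⁻¹,
      N.mul_mem (‹N.Normal›.conj_mem n.1 n.2 y) (N.inv_mem n.2)⟩
    have hf : Function.Injective f := by
      rintro ⟨a, ha⟩ ⟨b, hb⟩ hab
      have h1 : y * a * y⁻¹ * a⁻¹ = y * b * y⁻¹ * b⁻¹ := congrArg Subtype.val hab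
      have hya : y * a * y⁻¹ ∈ N := ‹N.Normal›.conj_mem a ha y
      have hyb : y * b * y⁻¹ ∈ N := ‹N.Normal›.conj_mem b hb y
      have h2 : y * (b⁻¹ * a) * y⁻¹ = b⁻¹ * a := by
        have h3 : (y * b * y⁻¹)⁻¹ * (y * a * y⁻¹) = b⁻¹ * a := by
          have h4 : y * a * y⁻¹ = y * b * y⁻¹ * b⁻¹ * a := by
            rw [← h1]; group
          rw [h4]; group
        calc y * (b⁻¹ * a) * y⁻¹ = (y * b * y⁻¹)⁻¹ * (y * a * y⁻¹) := by group
          _ = b⁻¹ * a := h3
      have h5 : b⁻¹ * a = 1 := by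
        apply hfix y hy _ (N.mul_mem (N.inv_mem hb) ha)
        have := congrArg (fun u => u * y) h2
        simpa [mul_assoc] using this
      apply Subtype.ext
      exact (inv_mul_eq_one.mp h5).symm
    obtain ⟨⟨n, hn⟩, hfn⟩ := (Finite.injective_iff_surjective.mp hf) ⟨m, hm⟩
    exact ⟨n, hn, (congrArg Subtype.val hfn).symm⟩
  -- the derivative of a commutator
  have hder : ∀ i, ∀ y : S, ∀ n ∈ N, (π (y * n * y⁻¹ * n⁻¹)).1.map (D i) =
      (red ε (π y)).1 * (π n).1.map (D i) * ((red ε (π y))⁻¹).1 - (π n).1.map (D i) := by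
    intro i y n hn
    have e1 : red ε (π (y * n * y⁻¹)) = 1 := by
      rw [map_mul, map_mul, map_mul, map_mul, hred n hn, mul_one, ← map_mul, ← map_mul, mul_inv_cancel,
        map_one, map_one]
    rw [map_mul, der_mul' (hD i) _ _ e1 (hred _ (N.inv_mem hn)), map_inv π n,
      der_inv (hD i) _ (hred n hn), map_mul, map_mul, map_inv, der_conj (hD i) _ _ (hred n hn)]
    abel
  have hscal : ∀ i, ∀ m ∈ N, ∃ c : ZMod 2, (π m).1.map (D i) =
      c • (1 : Matrix (Fin 15) (Fin 15) (ZMod 2)) := by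
    intro i m hm
    apply hspan
    intro z hz
    obtain ⟨y, hy, hyz⟩ := hlift z hz
    obtain ⟨n, hn, rfl⟩ := hsurj y hy m hm
    rw [hder i y n hn, hyz, Matrix.mul_sub, Matrix.trace_sub]
    have e1 : z.1 * (z.1 * (π n).1.map (D i) * (z⁻¹).1) =
        z.1 * ((z.1 * (π n).1.map (D i)) * (z⁻¹).1) := rfl
    have e2 : Matrix.trace (z.1 * (z.1 * (π n).1.map (D i) * (z⁻¹).1)) =
        Matrix.trace (z.1 * (π n).1.map (D i)) := by
      rw [Matrix.trace_mul_comm, Matrix.mul_assoc, ← Units.val_mul, inv_mul_cancel, Units.val_one,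
        mul_one]
    rw [e2, sub_self]
  apply Units.ext
  ext a b
  rw [Units.val_one]
  apply sub_eq_zero.mp
  rw [← Matrix.sub_apply]
  apply hsep
  · have h1 := congrArg (fun u => (Units.val u) a b) (hred m hm)
    simp only [red_val, Matrix.map_apply, Units.val_one] at h1
    rw [Matrix.sub_apply, map_sub, h1, Matrix.one_apply, Matrix.one_apply]
    split_ifs
    · rw [map_one, sub_self]
    · rw [map_zero, sub_self]
  · intro i
    obtain ⟨n, hn, hmn⟩ := hsurj y0 hy0 m hm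
    obtain ⟨c, hc⟩ := hscal i n hn
    have h2 := hder i y0 n hn
    rw [← hmn, hc] at h2
    have h3 : (π m).1.map (D i) = 0 := by
      rw [h2, Matrix.mul_smul, mul_one, Matrix.smul_mul, ← Units.val_mul, mul_inv_cancel,
        Units.val_one, sub_self]
    have h4 := congrFun (congrFun h3 a) b
    have h5 := congrFun (congrFun (der_one (hD i)) a) b
    rw [Matrix.map_apply] at h4 h5
    rw [Matrix.sub_apply, map_sub, h4, h5, sub_self]

/-- G5: `M` is characteristic. -/
theorem mchar {I : Type*} (D : I → R →+ ZMod 2) (hD : ∀ i, IsDer ε (D i))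
    (hsep : ∀ a, ε a = 0 → (∀ i, D i a = 0) → a = 0)
    (hspan : ∀ y : Matrix (Fin 15) (Fin 15) (ZMod 2),
      (∀ z : GL (Fin 15) (ZMod 2), orderOf z = 151 → Matrix.trace (z.1 * y) = 0) →
      ∃ c : ZMod 2, y = c • (1 : Matrix (Fin 15) (Fin 15) (ZMod 2)))
    (hex : ∃ z : GL (Fin 15) (ZMod 2), orderOf z = 151)
    (π : S →* GL (Fin 15) R)
    (hlift : ∀ z : GL (Fin 15) (ZMod 2), orderOf z = 151 → ∃ y : S, orderOf y = 151 ∧ red ε (π y) = z)
    (hM : ∀ m ∈ π.ker, m * m = 1)
    (hfix : ∀ y : S, orderOf y = 151 → ∀ m ∈ π.ker, y * m = m * y → m = 1) (α : MulAut S) :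
    π.ker.map α.toMonoidHom = π.ker := by
  have _ : (π.ker.map α.toMonoidHom).Normal := Subgroup.Normal.map inferInstance _ α.surjective
  have h1 : ∀ m ∈ π.ker.map α.toMonoidHom, π m = 1 := by
    apply pi_trivial D hD hsep hspan π hlift hex
    · rintro _ ⟨m, hm, rfl⟩
      show α m * α m = 1
      rw [← map_mul, hM m hm, map_one]
    · rintro y hy _ ⟨m, hm, rfl⟩ hc
      have h2 : m = 1 := by
        apply hfix (α.symm y) ((MulEquiv.orderOf_eq α.symm y).trans hy) m hm
        apply α.injective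
        rw [map_mul, map_mul, MulEquiv.apply_symm_apply]
        exact hc
      rw [h2, map_one]
  have hcard : Nat.card (π.ker.map α.toMonoidHom) = Nat.card π.ker :=
    Nat.card_congr (π.ker.equivMapOfInjective α.toMonoidHom α.injective).symm.toEquiv
  exact Subgroup.eq_of_le_of_card_ge (fun m hm => MonoidHom.mem_ker.mpr (h1 m hm)) hcard.ge

end main

end QL44
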