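import Mathlib
import Pool.Agent.Helper44.QL.MChar

/-!
# Block G5 for `R = TrivSqZeroExt (ZMod 2) J` (project AUT, S00834)
-/

set_option autoImplicit false

namespace QL44

open Matrix

section

variable {J : Type*} [AddCommGroup J] [Module (ZMod 2) J] [Module (ZMod 2)ᵐᵒᵖ J]
  [IsCentralScalar (ZMod 2) J]

/-- the reduction `k + J → k` -/
def fstR (J : Type*) [AddCommGroup J] [Module (ZMod 2) J] [Module (ZMod 2)ᵐᵒᵖ J]
    [IsCentralScalar (ZMod 2) J] : TrivSqZeroExt (ZMod 2) J →+* ZMod 2 :=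
  (TrivSqZeroExt.fstHom (ZMod 2) (ZMod 2) J).toRingHom

@[simp] theorem fstR_apply (a : TrivSqZeroExt (ZMod 2) J) : fstR J a = a.fst := rfl

/-- the derivation `f ∘ snd` -/
def derR (f : J →ₗ[ZMod 2] ZMod 2) : TrivSqZeroExt (ZMod 2) J →+ ZMod 2 where
  toFun a := f a.snd
  map_zero' := by rw [TrivSqZeroExt.snd_zero, map_zero]
  map_add' a b := by rw [TrivSqZeroExt.snd_add, map_add]

theorem derR_isDer (f : J →ₗ[ZMod 2] ZMod 2) : IsDer (fstR J) (derR f) := by
  intro a b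
  show f (a * b).snd = a.fst * f b.snd + f a.snd * b.fst
  rw [TrivSqZeroExt.snd_mul, map_add, map_smul, smul_eq_mul, op_smul_eq_smul, map_smul, smul_eq_mul,
    mul_comm (b.fst)]

theorem derR_sep (a : TrivSqZeroExt (ZMod 2) J) (h0 : fstR J a = 0)
    (h : ∀ f : J →ₗ[ZMod 2] ZMod 2, derR f a = 0) : a = 0 := by
  apply TrivSqZeroExt.ext
  · rw [TrivSqZeroExt.fst_zero]
    exact h0
  · rw [TrivSqZeroExt.snd_zero]
    exact (Module.forall_dual_apply_eq_zero_iff (ZMod 2) a.snd).mp h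

variable {S : Type*} [Group S] [Finite S]

/-- G5: `M = ker π` is characteristic in `S`. -/
theorem mchar_tsze
    (hspan : ∀ y : Matrix (Fin 15) (Fin 15) (ZMod 2),
      (∀ z : GL (Fin 15) (ZMod 2), orderOf z = 151 → Matrix.trace (z.1 * y) = 0) →
      ∃ c : ZMod 2, y = c • (1 : Matrix (Fin 15) (Fin 15) (ZMod 2)))
    (hex : ∃ z : GL (Fin 15) (ZMod 2), orderOf z = 151)
    (π : S →* GL (Fin 15) (TrivSqZeroExt (ZMod 2) J))
    (hlift : ∀ z : GL (Fin 15) (ZMod 2), orderOf z = 151 →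
      ∃ y : S, orderOf y = 151 ∧ Matrix.GeneralLinearGroup.map (fstR J) (π y) = z)
    (hM : ∀ m ∈ π.ker, m * m = 1)
    (hfix : ∀ y : S, orderOf y = 151 → ∀ m ∈ π.ker, y * m = m * y → m = 1) (α : MulAut S) :
    π.ker.map α.toMonoidHom = π.ker :=
  mchar derR derR_isDer derR_sep hspan hex π hlift hM hfix α

end

end QL44
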