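import Mathlib
import Pool.Agent.Helper44.QL.MCharT
import Pool.Agent.Helper40.QG.Field

/-!
# Block G5, final form (project AUT, S00834): `M` is characteristic in `S`
-/

set_option autoImplicit false

namespace QL44

open Matrix

theorem hspan151 (y : Matrix (Fin 15) (Fin 15) (ZMod 2))
    (h : ∀ z : GL (Fin 15) (ZMod 2), orderOf z = 151 → Matrix.trace (z.1 * y) = 0) :
    ∃ c : ZMod 2, y = c • (1 : Matrix (Fin 15) (Fin 15) (ZMod 2)) := by
  refine ⟨0, ?_⟩
  rw [zero_smul]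
  apply QG40.orth151
  intro z hz
  have h1 := h z hz
  rw [Matrix.trace] at h1
  rw [← h1]
  apply Finset.sum_congr rfl
  intro i _
  rw [Matrix.diag_apply, Matrix.mul_apply]
  rfl

section

variable {R : Type*} [CommRing R] {ε : R →+* ZMod 2} {S : Type*} [Group S] [Finite S]

/-- G5 in general form, without the matrix hypotheses. -/
theorem mchar151 {I : Type*} (D : I → R →+ ZMod 2) (hD : ∀ i, IsDer ε (D i))
    (hsep : ∀ a, ε a = 0 → (∀ i, D i a = 0) → a = 0)
    (π : S →* GL (Fin 15) R)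
    (hlift : ∀ z : GL (Fin 15) (ZMod 2), orderOf z = 151 → ∃ y : S, orderOf y = 151 ∧ red ε (π y) = z)
    (hM : ∀ m ∈ π.ker, m * m = 1)
    (hfix : ∀ y : S, orderOf y = 151 → ∀ m ∈ π.ker, y * m = m * y → m = 1) (α : MulAut S) :
    π.ker.map α.toMonoidHom = π.ker :=
  mchar D hD hsep hspan151 QG40.exists_z π hlift hM hfix α

variable {J : Type*} [AddCommGroup J] [Module (ZMod 2) J] [Module (ZMod 2)ᵐᵒᵖ J]
  [IsCentralScalar (ZMod 2) J]

/-- G5 for `R = k + J`. -/
theorem mchar151_tsze (π : S →* GL (Fin 15) (TrivSqZeroExt (ZMod 2) J))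
    (hlift : ∀ z : GL (Fin 15) (ZMod 2), orderOf z = 151 →
      ∃ y : S, orderOf y = 151 ∧ Matrix.GeneralLinearGroup.map (fstR J) (π y) = z)
    (hM : ∀ m ∈ π.ker, m * m = 1)
    (hfix : ∀ y : S, orderOf y = 151 → ∀ m ∈ π.ker, y * m = m * y → m = 1) (α : MulAut S) :
    π.ker.map α.toMonoidHom = π.ker :=
  mchar_tsze hspan151 QG40.exists_z π hlift hM hfix α

end

end QL44
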