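import Mathlib
import Pool.Agent.Helper44.QL.LemmaP

/-!
# Normal subgroups containing an element of order `p`, when `p ^ 2` does not divide the order
(project AUT, S00834)
-/

set_option autoImplicit false

namespace QL44

/-- If `p ^ 2` does not divide `|H|`, a subgroup of order `p` is a Sylow subgroup. -/
theorem exists_sylow_eq {H : Type*} [Group H] [Finite H] {p : ℕ} [Fact p.Prime]
    (h2 : ¬ p ^ 2 ∣ Nat.card H) {x : H} (hx : orderOf x = p) :
    ∃ P : Sylow p H, (P : Subgroup H) = Subgroup.zpowers x := by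
  have hxp : IsPGroup p (Subgroup.zpowers x) := by
    apply IsPGroup.of_card (n := 1)
    rw [Nat.card_zpowers, hx, pow_one]
  obtain ⟨P, hP⟩ := hxp.exists_le_sylow
  refine ⟨P, ?_⟩
  obtain ⟨n, hn⟩ := IsPGroup.iff_card.mp P.isPGroup'
  have hn2 : n < 2 := by
    by_contra hcon
    apply h2
    calc p ^ 2 ∣ p ^ n := pow_dvd_pow p (by omega)
      _ = Nat.card P := hn.symm
      _ ∣ Nat.card H := Subgroup.card_subgroup_dvd_card _
  have hle : Nat.card P ≤ Nat.card (Subgroup.zpowers x) := by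
    rw [hn, Nat.card_zpowers, hx]
    calc p ^ n ≤ p ^ 1 := Nat.pow_le_pow_right (Fact.out (p := p.Prime)).pos (by omega)
      _ = p := pow_one p
  exact (Subgroup.eq_of_le_of_card_ge hP hle).symm

/-- A normal subgroup with an element of order `p` contains all elements of order `p`. -/
theorem Pi_le_of_normal {H : Type*} [Group H] [Finite H] {p : ℕ} [Fact p.Prime]
    (h2 : ¬ p ^ 2 ∣ Nat.card H) (N : Subgroup H) [N.Normal] {b : H} (hbN : b ∈ N)
    (hb : orderOf b = p) : Pi p H ≤ N := by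
  apply Pi_le
  intro x hx
  obtain ⟨P, hP⟩ := exists_sylow_eq h2 hx
  obtain ⟨Q, hQ⟩ := exists_sylow_eq h2 hb
  obtain ⟨g, hg⟩ := MulAction.exists_smul_eq H Q P
  have h1 : x ∈ (P : Subgroup H) := by rw [hP]; exact Subgroup.mem_zpowers x
  rw [← hg, Sylow.coe_subgroup_smul, hQ] at h1
  rw [Subgroup.mem_pointwise_smul_iff_inv_smul_mem] at h1
  have h3 : (MulAut.conj g)⁻¹ • x ∈ N := (Subgroup.zpowers_le.mpr hbN) h1
  have h4 := ‹N.Normal›.conj_mem _ h3 g
  rw [← MulAut.conj_apply, ← MulAut.smul_def, smul_inv_smul] at h4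
  exact h4

variable {G : Type*} [Group G]

/-- The form for subgroups. -/
theorem PiIn_le_of_normal [Finite G] {p : ℕ} [Fact p.Prime] {S B : Subgroup G}
    (h2 : ¬ p ^ 2 ∣ Nat.card S) (hB : B.Normal) (hle : B ≤ S) (hb : ∃ b ∈ B, orderOf b = p) :
    PiIn p S ≤ B := by
  obtain ⟨b, hbB, hb⟩ := hb
  have _ : (B.subgroupOf S).Normal := hB.subgroupOf S
  have h3 : Pi p S ≤ B.subgroupOf S := by
    apply Pi_le_of_normal h2 (B.subgroupOf S) (b := ⟨b, hle hbB⟩)
    · rw [Subgroup.mem_subgroupOf]; exact hbB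
    · rw [← hb]
      exact (Subgroup.orderOf_mk b (hle hbB))
  rw [PiIn_eq]
  rw [Subgroup.map_le_iff_le_comap]
  exact h3

/-- `hmin` of `auto_dichotomy`. -/
theorem min_of_card [Finite G] {p : ℕ} [Fact p.Prime] {S : Subgroup G}
    (h2 : ¬ p ^ 2 ∣ Nat.card S) (hS : S ≤ PiIn p S) (B : Subgroup G) (hB : B.Normal) (hle : B ≤ S)
    (hb : ∃ b ∈ B, orderOf b = p) : S ≤ B :=
  hS.trans (PiIn_le_of_normal h2 hB hle hb)

/-- `S` is perfect as soon as its commutator subgroup contains an element of order `p`. -/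
theorem perfect_of_card [Finite G] {p : ℕ} [Fact p.Prime] {S : Subgroup G} [S.Normal]
    (h2 : ¬ p ^ 2 ∣ Nat.card S) (hS : S ≤ PiIn p S) (hb : ∃ b ∈ ⁅S, S⁆, orderOf b = p) :
    ⁅S, S⁆ = S := by
  have hle : ⁅S, S⁆ ≤ S := Subgroup.commutator_le_left S S
  exact le_antisymm hle (min_of_card h2 hS ⁅S, S⁆ inferInstance hle hb)

end QL44
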